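import Mathlib
import Pool.Agent.MF.LemT

set_option autoImplicit false
set_option linter.unusedSectionVars false

/-!
# MP_141f81, Section 9: the row data of (J), abstract part

Rows `i` with letters `x i`, `y i`, `z i` (of the roles `a`, `b`, `a + b`) and values.  One letter per value, one noise
term per letter and one colour are chosen by popularity.
-/

namespace Pool.Agent.helper49.MF

open Finset
open Pool.Agent.MF.LemT (nr kr)

section popular

variable {ι κ Λ : Type*} [DecidableEq κ] [DecidableEq Λ]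

/-- popular choice for one key -/
theorem popular_one (t : Finset ι) (lab : ι → Λ) (m : ℕ) (ht : t.Nonempty) (h : (t.image lab).card ≤ m) :
    ∃ l : Λ, t.card ≤ m * (t.filter fun i => lab i = l).card := by
  obtain ⟨l, hl, hmax⟩ := Finset.exists_max_image (t.image lab) (fun l => (t.filter fun i => lab i = l).card)
    (ht.image lab)
  refine ⟨l, ?_⟩
  rw [Finset.card_eq_sum_card_image lab t]
  calc ∑ b ∈ t.image lab, (t.filter fun a => lab a = b).card
      ≤ ∑ _b ∈ t.image lab, (t.filter fun i => lab i = l).card := Finset.sum_le_sum fun b hb => hmax b hb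
    _ = (t.image lab).card * (t.filter fun i => lab i = l).card := by rw [Finset.sum_const, smul_eq_mul]
    _ ≤ m * (t.filter fun i => lab i = l).card := Nat.mul_le_mul_right _ h

/-- popular choice: if for every key there are at most `m` labels, a choice of one label for every key keeps a
proportion `1 / m` -/
theorem popular (s : Finset ι) (hs : s.Nonempty) (key : ι → κ) (lab : ι → Λ) (m : ℕ)
    (h : ∀ k, ((s.filter fun i => key i = k).image lab).card ≤ m) :
    ∃ c : κ → Λ, s.card ≤ m * (s.filter fun i => lab i = c (key i)).card := by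
  classical
  have h1 : ∀ k, ∃ l : Λ, (s.filter fun i => key i = k).card ≤
      m * ((s.filter fun i => key i = k).filter fun i => lab i = l).card := by
    intro k
    rcases (s.filter fun i => key i = k).eq_empty_or_nonempty with h2 | h2
    · obtain ⟨i0, _⟩ := hs
      exact ⟨lab i0, by rw [h2]; simp⟩
    · exact popular_one _ lab m h2 (h k)
  choose c hc using h1
  refine ⟨c, ?_⟩
  have e1 := Finset.card_eq_sum_card_image key s
  have hmaps : ∀ i ∈ s.filter (fun i => lab i = c (key i)), key i ∈ s.image key := by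
    intro i hi
    exact mem_image_of_mem _ (mem_filter.1 hi).1
  have e2 := Finset.card_eq_sum_card_fiberwise hmaps
  rw [e1, e2, Finset.mul_sum]
  refine Finset.sum_le_sum fun k _ => ?_
  refine (hc k).trans (Nat.mul_le_mul_left _ (card_le_card ?_))
  intro i hi
  rw [mem_filter, mem_filter] at hi
  rw [mem_filter, mem_filter]
  obtain ⟨⟨hi1, hi2⟩, hi3⟩ := hi
  refine ⟨⟨hi1, ?_⟩, hi2⟩
  rw [hi2]
  exact hi3

end popular

/-- the rows, abstractly -/
structure RowIn (U : Type) [AddCommGroup U] [Fintype U] [DecidableEq U] (X ι : Type) [DecidableEq X] [DecidableEq ι]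
    (L : U → AddMonoid.End U) (φ : AddMonoid.End U) (W : AddSubgroup U) (T K M : ℕ) where
  two : ∀ u : U, u + u = 0
  rows : Finset ι
  x : ι → X
  y : ι → X
  z : ι → X
  pa : ι → U
  pb : ι → U
  v1 : ι → U
  v2 : ι → U
  inj : ∀ i ∈ rows, ∀ j ∈ rows, x i = x j → y i = y j → i = j
  fx : ∀ p : U, ((rows.filter fun i => pa i = p).image x).card ≤ T
  fy : ∀ p : U, ((rows.filter fun i => pb i = p).image y).card ≤ T
  fz : ∀ p : U, ((rows.filter fun i => pa i + pb i = p).image z).card ≤ T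
  Aa : X → AddMonoid.End U
  Ab : X → AddMonoid.End U
  Ac : X → AddMonoid.End U
  F0 : Finset U
  F1 : X → Finset U
  F2 : X → Finset U
  F3 : X → Finset U
  k0 : F0.card ≤ K
  k1 : ∀ i ∈ rows, (F1 (x i)).card ≤ K
  k2 : ∀ i ∈ rows, (F2 (y i)).card ≤ K
  k3 : ∀ i ∈ rows, (F3 (z i)).card ≤ K
  h0 : ∀ i ∈ rows, φ (pa i) + (v2 i + v1 i) ∈ F0
  h1 : ∀ i ∈ rows, Aa (x i) (pa i + pb i) + v1 i ∈ F1 (x i)
  h2 : ∀ i ∈ rows, Ab (y i) (pa i) + v2 i ∈ F2 (y i)
  h3 : ∀ i ∈ rows, Ac (z i) (pa i) + v1 i ∈ F3 (z i)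
  line : ∀ i ∈ rows, nr (Aa (x i) + Ab (y i) + Ac (z i)) ≤ K
  col : ι → Fin M
  c1 : ∀ i ∈ rows, ∀ j ∈ rows, col i = col j → nr (Aa (x i) + Aa (x j) + L (pa i + pa j)) ≤ K
  c2 : ∀ i ∈ rows, ∀ j ∈ rows, col i = col j → nr (Ab (y i) + Ab (y j) + L (pb i + pb j)) ≤ K
  c3 : ∀ i ∈ rows, ∀ j ∈ rows, col i = col j →
    nr (Ac (z i) + Ac (z j) + L ((pa i + pb i) + (pa j + pb j))) ≤ K
  cW1 : ∀ i ∈ rows, ∀ j ∈ rows, col i = col j → pa i + pa j ∈ W
  cW2 : ∀ i ∈ rows, ∀ j ∈ rows, col i = col j → pb i + pb j ∈ W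

/-- the output: the row data of (J) -/
structure RowOut (U : Type) [AddCommGroup U] [Fintype U] [DecidableEq U]
    (L : U → AddMonoid.End U) (φ : AddMonoid.End U) (W : AddSubgroup U) (K : ℕ) where
  B : Finset (U × U)
  A1 : U → AddMonoid.End U
  A2 : U → AddMonoid.End U
  A3 : U → AddMonoid.End U
  c1 : U → U
  c2 : U → U
  c3 : U → U
  c0 : U
  id1 : ∀ p ∈ B, φ p.1 + c0 = (A2 p.2 p.1 + c2 p.2) + (A1 p.1 (p.1 + p.2) + c1 p.1)
  id2 : ∀ p ∈ B, A3 (p.1 + p.2) p.1 + c3 (p.1 + p.2) = A1 p.1 (p.1 + p.2) + c1 p.1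
  r0 : ∀ p ∈ B, nr (A1 p.1 + A2 p.2 + A3 (p.1 + p.2)) ≤ K
  r1 : ∀ p ∈ B, ∀ p' ∈ B, nr (A1 p.1 + A1 p'.1 + L (p.1 + p'.1)) ≤ K
  r2 : ∀ p ∈ B, ∀ p' ∈ B, nr (A2 p.2 + A2 p'.2 + L (p.2 + p'.2)) ≤ K
  r3 : ∀ p ∈ B, ∀ p' ∈ B, nr (A3 (p.1 + p.2) + A3 (p'.1 + p'.2) + L ((p.1 + p.2) + (p'.1 + p'.2))) ≤ K
  W1 : ∀ p ∈ B, ∀ p' ∈ B, p.1 + p'.1 ∈ W
  W2 : ∀ p ∈ B, ∀ p' ∈ B, p.2 + p'.2 ∈ W

section

variable {U : Type} [AddCommGroup U] [Fintype U] [DecidableEq U] {X ι : Type} [DecidableEq X] [DecidableEq ι]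
  {L : U → AddMonoid.End U} {φ : AddMonoid.End U} {W : AddSubgroup U} {T K M : ℕ}

theorem two_cancel (two : ∀ u : U, u + u = 0) {a b c : U} (h : a + b = c) : b = a + c := by
  rw [← h, ← add_assoc, two, zero_add]

/-- a choice step -/
theorem popular' {ι' : Type} {κ Λ : Type} [DecidableEq κ] [DecidableEq Λ] (s : Finset ι') (hs : s.Nonempty)
    (key : ι' → κ) (lab : ι' → Λ) (m : ℕ) (F : κ → Finset Λ) (hF : ∀ i ∈ s, lab i ∈ F (key i))
    (hm : ∀ i ∈ s, (F (key i)).card ≤ m) :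
    ∃ c : κ → Λ, s.card ≤ m * (s.filter fun i => lab i = c (key i)).card ∧
      (s.filter fun i => lab i = c (key i)).Nonempty := by
  classical
  obtain ⟨c, hc⟩ := popular s hs key lab m (fun k => by
    rcases (s.filter fun i => key i = k).eq_empty_or_nonempty with h2 | ⟨i, hi⟩
    · rw [h2]; simp
    · rw [mem_filter] at hi
      refine (card_le_card ?_).trans (hm i hi.1)
      intro l hl
      rw [mem_image] at hl
      obtain ⟨j, hj, rfl⟩ := hl
      rw [mem_filter] at hj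
      have h3 := hF j hj.1
      rw [hj.2, ← hi.2] at h3
      exact h3)
  refine ⟨c, hc, ?_⟩
  rcases (s.filter fun i => lab i = c (key i)).eq_empty_or_nonempty with h1 | h1
  · rw [h1, card_empty, mul_zero] at hc
    exact absurd (card_pos.2 hs) (by omega)
  · exact h1

/-- **Row data.** -/
theorem RowIn.exists_out (I : RowIn U X ι L φ W T K M) (hne : I.rows.Nonempty) :
    ∃ O : RowOut U L φ W K, I.rows.card ≤ T ^ 3 * (K ^ 4 * M) * O.B.card := by
  classical
  -- one letter for every value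
  obtain ⟨cx, hx, n1⟩ := popular' I.rows hne I.pa I.x T (fun p => (I.rows.filter fun i => I.pa i = p).image I.x)
    (fun i hi => mem_image_of_mem _ (mem_filter.2 ⟨hi, rfl⟩)) (fun i _ => I.fx _)
  set s1 := I.rows.filter (fun i => I.x i = cx (I.pa i)) with hs1
  have sub1 : s1 ⊆ I.rows := filter_subset _ _
  obtain ⟨cy, hy, n2⟩ := popular' s1 n1 I.pb I.y T (fun p => (I.rows.filter fun i => I.pb i = p).image I.y)
    (fun i hi => mem_image_of_mem _ (mem_filter.2 ⟨sub1 hi, rfl⟩)) (fun i _ => I.fy _)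
  set s2 := s1.filter (fun i => I.y i = cy (I.pb i)) with hs2
  have sub2 : s2 ⊆ I.rows := (filter_subset _ _).trans sub1
  obtain ⟨cz, hz, n3⟩ := popular' s2 n2 (fun i => I.pa i + I.pb i) I.z T
    (fun p => (I.rows.filter fun i => I.pa i + I.pb i = p).image I.z)
    (fun i hi => mem_image_of_mem _ (mem_filter.2 ⟨sub2 hi, rfl⟩)) (fun i _ => I.fz _)
  set s3 := s2.filter (fun i => I.z i = cz (I.pa i + I.pb i)) with hs3
  have sub3 : s3 ⊆ I.rows := (filter_subset _ _).trans sub2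
  have ex : ∀ i ∈ s3, I.x i = cx (I.pa i) := fun i hi =>
    (mem_filter.1 (mem_filter.1 (mem_filter.1 hi).1).1).2
  have ey : ∀ i ∈ s3, I.y i = cy (I.pb i) := fun i hi => (mem_filter.1 (mem_filter.1 hi).1).2
  have ez : ∀ i ∈ s3, I.z i = cz (I.pa i + I.pb i) := fun i hi => (mem_filter.1 hi).2
  -- noise
  obtain ⟨d0, hd0, n4⟩ := popular' s3 n3 (fun _ => ()) (fun i => φ (I.pa i) + (I.v2 i + I.v1 i)) K (fun _ => I.F0)
    (fun i hi => I.h0 i (sub3 hi)) (fun i _ => I.k0)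
  set s4 := s3.filter (fun i => φ (I.pa i) + (I.v2 i + I.v1 i) = d0 ()) with hs4
  have sub4 : s4 ⊆ s3 := filter_subset _ _
  obtain ⟨d1, hd1, n5⟩ := popular' s4 n4 I.pa (fun i => I.Aa (I.x i) (I.pa i + I.pb i) + I.v1 i) K
    (fun p => I.F1 (cx p)) (fun i hi => by rw [← ex i (sub4 hi)]; exact I.h1 i (sub3 (sub4 hi)))
    (fun i hi => by rw [← ex i (sub4 hi)]; exact I.k1 i (sub3 (sub4 hi)))
  set s5 := s4.filter (fun i => I.Aa (I.x i) (I.pa i + I.pb i) + I.v1 i = d1 (I.pa i)) with hs5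
  have sub5 : s5 ⊆ s3 := (filter_subset _ _).trans sub4
  obtain ⟨d2, hd2, n6⟩ := popular' s5 n5 I.pb (fun i => I.Ab (I.y i) (I.pa i) + I.v2 i) K
    (fun p => I.F2 (cy p)) (fun i hi => by rw [← ey i (sub5 hi)]; exact I.h2 i (sub3 (sub5 hi)))
    (fun i hi => by rw [← ey i (sub5 hi)]; exact I.k2 i (sub3 (sub5 hi)))
  set s6 := s5.filter (fun i => I.Ab (I.y i) (I.pa i) + I.v2 i = d2 (I.pb i)) with hs6
  have sub6 : s6 ⊆ s3 := (filter_subset _ _).trans sub5
  obtain ⟨d3, hd3, n7⟩ := popular' s6 n6 (fun i => I.pa i + I.pb i) (fun i => I.Ac (I.z i) (I.pa i) + I.v1 i) K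
    (fun p => I.F3 (cz p)) (fun i hi => by rw [← ez i (sub6 hi)]; exact I.h3 i (sub3 (sub6 hi)))
    (fun i hi => by rw [← ez i (sub6 hi)]; exact I.k3 i (sub3 (sub6 hi)))
  set s7 := s6.filter (fun i => I.Ac (I.z i) (I.pa i) + I.v1 i = d3 (I.pa i + I.pb i)) with hs7
  have sub7 : s7 ⊆ s3 := (filter_subset _ _).trans sub6
  -- colours
  obtain ⟨d4, hd4, n8⟩ := popular' s7 n7 (fun _ => ()) I.col M (fun _ => univ) (fun i _ => mem_univ _)
    (fun i _ => by rw [card_univ, Fintype.card_fin])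
  set s8 := s7.filter (fun i => I.col i = d4 ()) with hs8
  have sub8 : s8 ⊆ s3 := (filter_subset _ _).trans sub7
  have e7 : ∀ i ∈ s8, i ∈ s7 := fun i hi => (mem_filter.1 hi).1
  have e6 : ∀ i ∈ s8, i ∈ s6 := fun i hi => (mem_filter.1 (e7 i hi)).1
  have e5 : ∀ i ∈ s8, i ∈ s5 := fun i hi => (mem_filter.1 (e6 i hi)).1
  have e4 : ∀ i ∈ s8, i ∈ s4 := fun i hi => (mem_filter.1 (e5 i hi)).1
  have q0 : ∀ i ∈ s8, φ (I.pa i) + (I.v2 i + I.v1 i) = d0 () := fun i hi => (mem_filter.1 (e4 i hi)).2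
  have q1 : ∀ i ∈ s8, I.Aa (cx (I.pa i)) (I.pa i + I.pb i) + I.v1 i = d1 (I.pa i) := fun i hi => by
    rw [← ex i (sub8 hi)]
    exact (mem_filter.1 (e5 i hi)).2
  have q2 : ∀ i ∈ s8, I.Ab (cy (I.pb i)) (I.pa i) + I.v2 i = d2 (I.pb i) := fun i hi => by
    rw [← ey i (sub8 hi)]
    exact (mem_filter.1 (e6 i hi)).2
  have q3 : ∀ i ∈ s8, I.Ac (cz (I.pa i + I.pb i)) (I.pa i) + I.v1 i = d3 (I.pa i + I.pb i) := fun i hi => by
    rw [← ez i (sub8 hi)]
    exact (mem_filter.1 (e7 i hi)).2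
  have q4 : ∀ i ∈ s8, ∀ j ∈ s8, I.col i = I.col j := fun i hi j hj => by
    rw [(mem_filter.1 hi).2, (mem_filter.1 hj).2]
  have two := I.two
  let O : RowOut U L φ W K :=
    { B := s8.image (fun i => (I.pa i, I.pb i))
      A1 := fun p => I.Aa (cx p)
      A2 := fun p => I.Ab (cy p)
      A3 := fun p => I.Ac (cz p)
      c1 := d1
      c2 := d2
      c3 := d3
      c0 := d0 ()
      id1 := by
        intro p hp
        obtain ⟨i, hi, rfl⟩ := mem_image.1 hp
        have r1 := two_cancel two (q1 i hi)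
        have r2 := two_cancel two (q2 i hi)
        have r0 := q0 i hi
        show φ (I.pa i) + d0 () = (I.Ab (cy (I.pb i)) (I.pa i) + d2 (I.pb i)) +
          (I.Aa (cx (I.pa i)) (I.pa i + I.pb i) + d1 (I.pa i))
        rw [← r1, ← r2, ← r0, ← add_assoc (φ (I.pa i)), two, zero_add]
      id2 := by
        intro p hp
        obtain ⟨i, hi, rfl⟩ := mem_image.1 hp
        have r1 := two_cancel two (q1 i hi)
        have r3 := two_cancel two (q3 i hi)
        show I.Ac (cz (I.pa i + I.pb i)) (I.pa i) + d3 (I.pa i + I.pb i) =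
          I.Aa (cx (I.pa i)) (I.pa i + I.pb i) + d1 (I.pa i)
        rw [← r1, ← r3]
      r0 := by
        intro p hp
        obtain ⟨i, hi, rfl⟩ := mem_image.1 hp
        show nr (I.Aa (cx (I.pa i)) + I.Ab (cy (I.pb i)) + I.Ac (cz (I.pa i + I.pb i))) ≤ K
        rw [← ex i (sub8 hi), ← ey i (sub8 hi), ← ez i (sub8 hi)]
        exact I.line i (sub3 (sub8 hi))
      r1 := by
        intro p hp p' hp'
        obtain ⟨i, hi, rfl⟩ := mem_image.1 hp
        obtain ⟨j, hj, rfl⟩ := mem_image.1 hp'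
        show nr (I.Aa (cx (I.pa i)) + I.Aa (cx (I.pa j)) + L (I.pa i + I.pa j)) ≤ K
        rw [← ex i (sub8 hi), ← ex j (sub8 hj)]
        exact I.c1 i (sub3 (sub8 hi)) j (sub3 (sub8 hj)) (q4 i hi j hj)
      r2 := by
        intro p hp p' hp'
        obtain ⟨i, hi, rfl⟩ := mem_image.1 hp
        obtain ⟨j, hj, rfl⟩ := mem_image.1 hp'
        show nr (I.Ab (cy (I.pb i)) + I.Ab (cy (I.pb j)) + L (I.pb i + I.pb j)) ≤ K
        rw [← ey i (sub8 hi), ← ey j (sub8 hj)]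
        exact I.c2 i (sub3 (sub8 hi)) j (sub3 (sub8 hj)) (q4 i hi j hj)
      r3 := by
        intro p hp p' hp'
        obtain ⟨i, hi, rfl⟩ := mem_image.1 hp
        obtain ⟨j, hj, rfl⟩ := mem_image.1 hp'
        show nr (I.Ac (cz (I.pa i + I.pb i)) + I.Ac (cz (I.pa j + I.pb j)) +
          L ((I.pa i + I.pb i) + (I.pa j + I.pb j))) ≤ K
        rw [← ez i (sub8 hi), ← ez j (sub8 hj)]
        exact I.c3 i (sub3 (sub8 hi)) j (sub3 (sub8 hj)) (q4 i hi j hj)
      W1 := by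
        intro p hp p' hp'
        obtain ⟨i, hi, rfl⟩ := mem_image.1 hp
        obtain ⟨j, hj, rfl⟩ := mem_image.1 hp'
        exact I.cW1 i (sub3 (sub8 hi)) j (sub3 (sub8 hj)) (q4 i hi j hj)
      W2 := by
        intro p hp p' hp'
        obtain ⟨i, hi, rfl⟩ := mem_image.1 hp
        obtain ⟨j, hj, rfl⟩ := mem_image.1 hp'
        exact I.cW2 i (sub3 (sub8 hi)) j (sub3 (sub8 hj)) (q4 i hi j hj) }
  refine ⟨O, ?_⟩
  have hB : O.B.card = s8.card := by
    refine card_image_of_injOn ?_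
    intro i hi j hj he
    have hi' : i ∈ s8 := hi
    have hj' : j ∈ s8 := hj
    have he' : (I.pa i, I.pb i) = (I.pa j, I.pb j) := he
    rw [Prod.mk.injEq] at he'
    refine I.inj i (sub3 (sub8 hi')) j (sub3 (sub8 hj')) ?_ ?_
    · rw [ex i (sub8 hi'), ex j (sub8 hj'), he'.1]
    · rw [ey i (sub8 hi'), ey j (sub8 hj'), he'.2]
  rw [hB]
  calc I.rows.card ≤ T * s1.card := hx
    _ ≤ T * (T * s2.card) := by gcongr
    _ ≤ T * (T * (T * s3.card)) := by gcongr
    _ ≤ T * (T * (T * (K * s4.card))) := by gcongr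
    _ ≤ T * (T * (T * (K * (K * s5.card)))) := by gcongr
    _ ≤ T * (T * (T * (K * (K * (K * s6.card))))) := by gcongr
    _ ≤ T * (T * (T * (K * (K * (K * (K * s7.card)))))) := by gcongr
    _ ≤ T * (T * (T * (K * (K * (K * (K * (M * s8.card))))))) := by gcongr
    _ = T ^ 3 * (K ^ 4 * M) * s8.card := by ring

end

end Pool.Agent.helper49.MF
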