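import Mathlib
import Pool.Agent.helper49.MF.GRowA
import Pool.Agent.helper20.MF.Glue3

set_option autoImplicit false
set_option linter.unusedSectionVars false

/-!
# MP_141f81, Section 9: the row data of (J), from the rows
-/

namespace Pool.Agent.helper49.MF

open Finset Pool.Agent.MF Helper34MF
open Pool.Agent.MF.LemT (nr kr)
open Pool.Agent.helper20.MF (Hc RoleOK Op)

/-- a colouring by a bounded number of values -/
theorem exists_col {ι Λ : Type} [DecidableEq Λ] (s : Finset ι) (f : ι → Λ) (m : ℕ) (hm : (s.image f).card ≤ m)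
    (hpos : 0 < m) : ∃ c : ι → Fin m, ∀ i ∈ s, ∀ j ∈ s, c i = c j → f i = f j := by
  classical
  let e := (s.image f).equivFin
  refine ⟨fun i => if h : f i ∈ s.image f then ⟨(e ⟨f i, h⟩).1, (e ⟨f i, h⟩).2.trans_le hm⟩ else ⟨0, hpos⟩, ?_⟩
  intro i hi j hj h
  have hi' : f i ∈ s.image f := mem_image_of_mem _ hi
  have hj' : f j ∈ s.image f := mem_image_of_mem _ hj
  simp only [hi', hj', dif_pos] at h
  have h1 : (e ⟨f i, hi'⟩).1 = (e ⟨f j, hj'⟩).1 := Fin.mk.inj_iff.1 h
  have h2 := e.injective (Fin.ext h1)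
  exact congrArg Subtype.val h2

section

variable {N : Type} [AddCommGroup N] [Fintype N] [DecidableEq N] {M : Mat N} {n T : ℕ}
  {R S : Finset (N → Fin n)} {U : Type} [AddCommGroup U] [Fintype U] [DecidableEq U] {π : N → Fin n → U}

theorem sub_single (S : Finset (N → Fin n)) (v : N) (η : N → Fin n) :
    sub S {v} η = S.filter fun ρ => ρ v = η v := by
  ext ρ
  rw [Pool.Agent.helper20.MF.mem_sub, mem_filter]
  constructor
  · rintro ⟨h1, h2⟩
    exact ⟨h1, (h2 v (mem_singleton_self v)).symm⟩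
  · rintro ⟨h1, h2⟩
    refine ⟨h1, fun w hw => ?_⟩
    rw [mem_singleton] at hw
    subst hw
    exact h2.symm

/-- the input from the rows -/
structure RIn (M : Mat N) (n T : ℕ) (R S : Finset (N → Fin n)) (U : Type) [AddCommGroup U] [Fintype U]
    [DecidableEq U] (π : N → Fin n → U) (S3 : Finset (N → Fin n)) (a b : N) (L1 : Finset N) (mul : N → N → N)
    (sq : N → N) (L : U → AddMonoid.End U) (φ : AddMonoid.End U) (W : AddSubgroup U)
    (Aop : N → Fin n → AddMonoid.End U) (ν : N → Fin n → AddMonoid.End U) (VV : Finset (AddMonoid.End U))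
    (F0 : Finset U) (K : ℕ) : Prop where
  em : EMOut M n T R S U π
  sub3 : S3 ⊆ S
  rk : M.rk {a, b} = 2
  aL : a ∈ L1
  bL : b ∈ L1
  abL : a + b ∈ L1
  /-- the roles -/
  sq_eq : sq a = mul b a + mul a (a + b)
  sym : mul (a + b) a = mul a (a + b)
  mab : ∀ v ∈ L1, mul a v + mul b v + mul (a + b) v = 0
  /-- a role of `L1` outside the plane -/
  out : ∃ v ∈ L1, ¬ M.InCl {a, b} v
  /-- the operators -/
  opa : ∀ η ∈ S, Sec (Hc M π {a} L1 (sub S {a} η) (mul a)) (Aop a (η a)) K
  opb : ∀ η ∈ S, Sec (Hc M π {b} L1 (sub S {b} η) (mul b)) (Aop b (η b)) K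
  opc : ∀ η ∈ S, Sec (Hc M π {a + b} L1 (sub S {a + b} η) (mul (a + b))) (Aop (a + b) (η (a + b))) K
  /-- the map `L` -/
  rL : ∀ u v : U, nr (L (u + v) + (L u + L v)) ≤ K
  ra : ∀ η ∈ S3, ν a (η a) ∈ VV ∧ nr (Aop a (η a) + (L (π a (η a)) + ν a (η a))) ≤ K
  rb : ∀ η ∈ S3, ν b (η b) ∈ VV ∧ nr (Aop b (η b) + (L (π b (η b)) + ν b (η b))) ≤ K
  rc : ∀ η ∈ S3, ν (a + b) (η (a + b)) ∈ VV ∧
    nr (Aop (a + b) (η (a + b)) + (L (π (a + b) (η (a + b))) + ν (a + b) (η (a + b)))) ≤ K
  cV : VV.card ≤ K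
  cW : W.index ≤ K
  c0 : F0.card ≤ K
  h0 : ∀ η ∈ S3, φ (π a (η a)) + π (sq a) (η (sq a)) ∈ F0
  pos : 1 ≤ K

variable {S3 : Finset (N → Fin n)} {a b : N} {L1 : Finset N} {mul : N → N → N}
    {sq : N → N} {L : U → AddMonoid.End U} {φ : AddMonoid.End U} {W : AddSubgroup U}
    {Aop : N → Fin n → AddMonoid.End U} {ν : N → Fin n → AddMonoid.End U} {VV : Finset (AddMonoid.End U)}
    {F0 : Finset U} {K : ℕ}

theorem sub_eq_add' (two : ∀ u : U, u + u = 0) (x y : U) : x - y = x + y := by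
  rw [sub_eq_add_neg, neg_eq_of_add_eq_zero_left (two y)]

/-- two letters of one colour -/
theorem two_letters (two : ∀ u : U, u + u = 0) (rL : ∀ u v : U, nr (L (u + v) + (L u + L v)) ≤ K)
    {A A' V : AddMonoid.End U} {p p' : U} (h : nr (A + (L p + V)) ≤ K) (h' : nr (A' + (L p' + V)) ≤ K) :
    nr (A + A' + L (p + p')) ≤ K * K * K := by
  have e : A + A' + L (p + p') = (A + (L p + V)) + (A' + (L p' + V)) + (L (p + p') + (L p + L p')) := by
    have e1 := Pool.Agent.MF.LemT.add_self two (L p)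
    have e2 := Pool.Agent.MF.LemT.add_self two (L p')
    have e3 := Pool.Agent.MF.LemT.add_self two V
    calc A + A' + L (p + p') = A + A' + L (p + p') + (0 + 0 + 0) := by abel
      _ = A + A' + L (p + p') + ((L p + L p) + (L p' + L p') + (V + V)) := by rw [e1, e2, e3]
      _ = _ := by abel
  rw [e]
  exact (Pool.Agent.MF.LemT.nr_add _ _).trans (Nat.mul_le_mul ((Pool.Agent.MF.LemT.nr_add _ _).trans
    (Nat.mul_le_mul h h')) (rL p p'))

/-- the bound for all operator errors -/
def KR (T K : ℕ) : ℕ := T ^ 3 * (K * K * K) + K * K * K + K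

theorem K_le_KR (T K : ℕ) : K ≤ KR T K := by unfold KR; omega

theorem K3_le_KR (T K : ℕ) : K * K * K ≤ KR T K := by
  unfold KR
  have : 0 ≤ T ^ 3 * (K * K * K) := Nat.zero_le _
  omega

theorem line_le_KR (T K : ℕ) : T ^ 3 * (K * K * K) ≤ KR T K := by
  unfold KR
  omega

theorem card_le_pairs (I : RIn M n T R S U π S3 a b L1 mul sq L φ W Aop ν VV F0 K) :
    S3.card ≤ (S3.image fun ρ => (ρ a, ρ b)).card * n ^ (M.r - 2) := by
  classical
  have hE : Exact M S3 := Exact.mono I.em.exact (I.sub3.trans (Pool.Agent.helper20.MF.S_sub I.em))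
  have h2 : S3 ⊆ (S3.image fun ρ => (ρ a, ρ b)).biUnion fun z => S3.filter fun ρ => (ρ a, ρ b) = z := by
    intro ρ hρ
    rw [mem_biUnion]
    exact ⟨(ρ a, ρ b), mem_image_of_mem _ hρ, mem_filter.2 ⟨hρ, rfl⟩⟩
  refine (card_le_card h2).trans (card_biUnion_le_card_mul _ _ _ fun z hz => ?_)
  obtain ⟨σ, hσ, rfl⟩ := mem_image.1 hz
  have h3 := Pool.Agent.MF.card_sub_le hE {a, b} σ
  rw [I.rk] at h3
  refine (card_le_card ?_).trans h3
  intro ρ hρ
  rw [mem_filter, Prod.mk.injEq] at hρ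
  rw [Pool.Agent.helper20.MF.mem_sub]
  refine ⟨hρ.1, fun w hw => ?_⟩
  rw [mem_insert, mem_singleton] at hw
  rcases hw with rfl | rfl
  · exact hρ.2.1.symm
  · exact hρ.2.2.symm

theorem rk_facts (hab : M.rk {a, b} = 2) : a ≠ 0 ∧ b ≠ 0 ∧ a + b ≠ 0 ∧ ¬ M.InCl {a} (a + b) ∧ ¬ M.InCl {b} a ∧
    ¬ M.InCl {a + b} a := by
  have key : ∀ v w : N, M.rk {v, w} = 2 → ¬ M.InCl {v} w ∧ ¬ M.InCl {w} v ∧ v ≠ 0 ∧ w ≠ 0 := by
    intro v w h
    have hw1 : M.rk {w} ≤ 1 := by
      rcases eq_or_ne w 0 with rfl | hw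
      · rw [M.rk_zero]; omega
      · rw [M.rk_single w hw]
    have hv1 : M.rk {v} ≤ 1 := by
      rcases eq_or_ne v 0 with rfl | hv
      · rw [M.rk_zero]; omega
      · rw [M.rk_single v hv]
    have e : ({v, w} : Finset N) = {w, v} := by
      ext x; simp only [mem_insert, mem_singleton]; tauto
    refine ⟨fun hc => ?_, fun hc => ?_, ?_, ?_⟩
    · unfold Mat.InCl at hc
      have e2 : (insert w ({v} : Finset N)) = {w, v} := rfl
      rw [e2, ← e, h] at hc
      omega
    · unfold Mat.InCl at hc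
      have e2 : (insert v ({w} : Finset N)) = {v, w} := rfl
      rw [e2, h] at hc
      omega
    · rintro rfl
      have h1 := M.rk_insert_le w {(0 : N)}
      have e2 : (insert w ({0} : Finset N)) = {w, 0} := rfl
      rw [e2, ← e, h, M.rk_zero] at h1
      omega
    · rintro rfl
      have h1 := M.rk_insert_le v {(0 : N)}
      have e2 : (insert v ({0} : Finset N)) = {v, 0} := rfl
      rw [e2, h, M.rk_zero] at h1
      omega
  obtain ⟨h1, h2, h3, h4⟩ := key a b hab
  have h5 : M.rk {a, a + b} = 2 := by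
    have h6 := M.rk_add a (a + b)
    have e : a + (a + b) = b := by rw [← add_assoc, M.two, zero_add]
    rw [e] at h6
    rw [← h6]
    have h7 := M.rk_add a b
    have e2 : ({a, a + b, b} : Finset N) = {a, b, a + b} := by
      ext x; simp only [mem_insert, mem_singleton]; tauto
    rw [e2, h7, hab]
  obtain ⟨h6, h7, -, h9⟩ := key a (a + b) h5
  exact ⟨h3, h4, h9, h6, h2, h7⟩

/-- **The row data.** -/
theorem RIn.exists_out (I : RIn M n T R S U π S3 a b L1 mul sq L φ W Aop ν VV F0 K) (hne : S3.Nonempty) :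
    ∃ O : RowOut U L φ W (KR T K), (S3.image fun ρ => (ρ a, ρ b)).card ≤
      T ^ 3 * (KR T K ^ 4 * (K ^ 3 * K ^ 2)) * O.B.card := by
  classical
  obtain ⟨hp1, hp2, hp3, hp4, hp5, hp6⟩ := rk_facts I.rk
  have two := I.em.two
  have hSR := Pool.Agent.helper20.MF.S_sub I.em
  -- a row for every pair
  have hrw : ∀ i : Fin n × Fin n, ∃ ρ : N → Fin n, i ∈ (S3.image fun ρ => (ρ a, ρ b)) → ρ ∈ S3 ∧ ρ a = i.1 ∧ ρ b = i.2 := by
    intro i
    by_cases hi : i ∈ (S3.image fun ρ => (ρ a, ρ b))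
    · obtain ⟨ρ, hρ, rfl⟩ := mem_image.1 hi
      exact ⟨ρ, fun _ => ⟨hρ, rfl, rfl⟩⟩
    · obtain ⟨ρ, _⟩ := hne
      exact ⟨ρ, fun h => absurd h hi⟩
  choose rw0 hrw0 using hrw
  set rows := S3.image (fun ρ => (ρ a, ρ b)) with hrows
  have m3 : ∀ i ∈ rows, rw0 i ∈ S3 := fun i hi => (hrw0 i hi).1
  have mS : ∀ i ∈ rows, rw0 i ∈ S := fun i hi => I.sub3 (m3 i hi)
  have mR : ∀ i ∈ rows, rw0 i ∈ R := fun i hi => hSR (mS i hi)
  have ea : ∀ i ∈ rows, rw0 i a = i.1 := fun i hi => (hrw0 i hi).2.1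
  have eb : ∀ i ∈ rows, rw0 i b = i.2 := fun i hi => (hrw0 i hi).2.2
  have fibc : ∀ (v : N) (w : U), v ≠ 0 → ∀ (s : Finset (Fin n × Fin n)), s ⊆ rows →
      ((s.filter fun i => π v (rw0 i v) = w).image fun i => rw0 i v).card ≤ T := by
    intro v w hv s hs
    refine (card_le_card ?_).trans (I.em.fib v w hv)
    intro y hy
    obtain ⟨i, hi, rfl⟩ := mem_image.1 hy
    rw [mem_filter] at hi
    rw [mem_filter]
    exact ⟨mem_univ _, ⟨rw0 i, mR i (hs hi.1), rfl⟩, hi.2⟩
  have hadd : ∀ i ∈ rows, ∀ u v : N, π (u + v) (rw0 i (u + v)) = π u (rw0 i u) + π v (rw0 i v) :=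
    fun i hi u v => I.em.add _ (mR i hi) u v
  -- colours
  let f : Fin n × Fin n → AddMonoid.End U × AddMonoid.End U × AddMonoid.End U × (U ⧸ W) × (U ⧸ W) := fun i => (ν a (rw0 i a), ν b (rw0 i b), ν (a + b) (rw0 i (a + b)),
    (QuotientAddGroup.mk (π a (rw0 i a)) : U ⧸ W), (QuotientAddGroup.mk (π b (rw0 i b)) : U ⧸ W))
  have hQ : Fintype.card (U ⧸ W) ≤ K := by
    have h1 := I.cW
    unfold AddSubgroup.index at h1
    rwa [Nat.card_eq_fintype_card] at h1
  have hfc : (rows.image f).card ≤ K ^ 3 * K ^ 2 := by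
    have h1 : rows.image f ⊆ VV ×ˢ (VV ×ˢ (VV ×ˢ ((univ : Finset (U ⧸ W)) ×ˢ (univ : Finset (U ⧸ W))))) := by
      intro l hl
      obtain ⟨i, hi, rfl⟩ := mem_image.1 hl
      simp only [f, mem_product, mem_univ, and_true]
      exact ⟨(I.ra _ (m3 i hi)).1, (I.rb _ (m3 i hi)).1, (I.rc _ (m3 i hi)).1⟩
    refine (card_le_card h1).trans ?_
    rw [card_product, card_product, card_product, card_product, card_univ]
    have hV := I.cV
    calc VV.card * (VV.card * (VV.card * (Fintype.card (U ⧸ W) * Fintype.card (U ⧸ W))))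
        ≤ K * (K * (K * (K * K))) := by gcongr
      _ = K ^ 3 * K ^ 2 := by ring
  have hKpos : 0 < K ^ 3 * K ^ 2 := by
    have := I.pos
    positivity
  obtain ⟨col, hcol⟩ := exists_col rows f _ hfc hKpos
  let J : RowIn U (Fin n) (Fin n × Fin n) L φ W T (KR T K) (K ^ 3 * K ^ 2) :=
    { two := two
      rows := rows
      x := fun i => rw0 i a
      y := fun i => rw0 i b
      z := fun i => rw0 i (a + b)
      pa := fun i => π a (rw0 i a)
      pb := fun i => π b (rw0 i b)
      v1 := fun i => π (mul a (a + b)) (rw0 i (mul a (a + b)))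
      v2 := fun i => π (mul b a) (rw0 i (mul b a))
      inj := by
        intro i hi j hj h1 h2
        rw [ea i hi, ea j hj] at h1
        rw [eb i hi, eb j hj] at h2
        exact Prod.ext h1 h2
      fx := fun p => fibc a p hp1 rows (Subset.refl _)
      fy := fun p => fibc b p hp2 rows (Subset.refl _)
      fz := by
        intro p
        refine (card_le_card ?_).trans (fibc (a + b) p hp3 rows (Subset.refl _))
        refine image_subset_image ?_
        intro i hi
        rw [mem_filter] at hi ⊢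
        exact ⟨hi.1, by rw [hadd i hi.1]; exact hi.2⟩
      Aa := fun x => Aop a x
      Ab := fun x => Aop b x
      Ac := fun x => Aop (a + b) x
      F0 := F0
      F1 := fun x => (ind (Hc M π {a} L1 (S.filter fun ρ => ρ a = x) (mul a))).toFinset
      F2 := fun x => (ind (Hc M π {b} L1 (S.filter fun ρ => ρ b = x) (mul b))).toFinset
      F3 := fun x => (ind (Hc M π {a + b} L1 (S.filter fun ρ => ρ (a + b) = x) (mul (a + b)))).toFinset
      k0 := I.c0.trans (K_le_KR T K)
      k1 := by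
        intro i hi
        have h1 := (I.opa _ (mS i hi)).le
        rw [sub_single] at h1
        refine le_trans ?_ (h1.trans (K_le_KR T K))
        rw [← Set.ncard_eq_toFinset_card']
        rfl
      k2 := by
        intro i hi
        have h1 := (I.opb _ (mS i hi)).le
        rw [sub_single] at h1
        refine le_trans ?_ (h1.trans (K_le_KR T K))
        rw [← Set.ncard_eq_toFinset_card']
        rfl
      k3 := by
        intro i hi
        have h1 := (I.opc _ (mS i hi)).le
        rw [sub_single] at h1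
        refine le_trans ?_ (h1.trans (K_le_KR T K))
        rw [← Set.ncard_eq_toFinset_card']
        rfl
      h0 := by
        intro i hi
        have h1 := I.h0 _ (m3 i hi)
        have h2 := hadd i hi (mul b a) (mul a (a + b))
        rw [← I.sq_eq] at h2
        rw [h2] at h1
        exact h1
      h1 := by
        intro i hi
        rw [Set.mem_toFinset]
        have h1 := Pool.Agent.helper20.MF.val_mem (L := L1) (τ := {a}) (A := mul a) (π := π)
          (Pool.Agent.helper20.MF.mem_sub_self (mS i hi) {a}) (v := a + b) I.abL hp4 (I.opa _ (mS i hi))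
        rw [sub_eq_add' two, sub_single, hadd i hi a b] at h1
        exact h1
      h2 := by
        intro i hi
        rw [Set.mem_toFinset]
        have h1 := Pool.Agent.helper20.MF.val_mem (L := L1) (τ := {b}) (A := mul b) (π := π)
          (Pool.Agent.helper20.MF.mem_sub_self (mS i hi) {b}) (v := a) I.aL hp5 (I.opb _ (mS i hi))
        rw [sub_eq_add' two, sub_single] at h1
        exact h1
      h3 := by
        intro i hi
        rw [Set.mem_toFinset]
        have h1 := Pool.Agent.helper20.MF.val_mem (L := L1) (τ := {a + b}) (A := mul (a + b)) (π := π)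
          (Pool.Agent.helper20.MF.mem_sub_self (mS i hi) {a + b}) (v := a) I.aL hp6 (I.opc _ (mS i hi))
        rw [sub_eq_add' two, sub_single, I.sym] at h1
        exact h1
      line := by
        intro i hi
        refine le_trans ?_ (line_le_KR T K)
        have hcl : ∀ w : N, w ∈ ({a} : Finset N) ∨ w ∈ ({b} : Finset N) ∨ w ∈ ({a + b} : Finset N) →
            M.InCl {a, b} w := by
          intro w hw
          simp only [mem_singleton] at hw
          rcases hw with rfl | rfl | rfl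
          · exact Pool.Agent.helper20.MF.incl_mem (by simp)
          · exact Pool.Agent.helper20.MF.incl_mem (by simp)
          · exact Pool.Agent.helper20.MF.incl_add (Pool.Agent.helper20.MF.incl_mem (by simp))
              (Pool.Agent.helper20.MF.incl_mem (by simp))
        exact Pool.Agent.helper20.MF.rel_three I.em (mS i hi) I.out
          (Pool.Agent.helper20.MF.Into.id (fun w hw => hcl w (Or.inl hw)) (Subset.refl _))
          (Pool.Agent.helper20.MF.Into.id (fun w hw => hcl w (Or.inr (Or.inl hw))) (Subset.refl _))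
          (Pool.Agent.helper20.MF.Into.id (fun w hw => hcl w (Or.inr (Or.inr hw))) (Subset.refl _))
          (I.opa _ (mS i hi)) (I.opb _ (mS i hi)) (I.opc _ (mS i hi)) I.mab
      col := col
      c1 := by
        intro i hi j hj hij
        have h1 := hcol i hi j hj hij
        simp only [f, Prod.mk.injEq] at h1
        have h2 := (I.ra _ (m3 i hi)).2
        have h3 := (I.ra _ (m3 j hj)).2
        rw [← h1.1] at h3
        exact (two_letters two I.rL h2 h3).trans (K3_le_KR T K)
      c2 := by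
        intro i hi j hj hij
        have h1 := hcol i hi j hj hij
        simp only [f, Prod.mk.injEq] at h1
        have h2 := (I.rb _ (m3 i hi)).2
        have h3 := (I.rb _ (m3 j hj)).2
        rw [← h1.2.1] at h3
        exact (two_letters two I.rL h2 h3).trans (K3_le_KR T K)
      c3 := by
        intro i hi j hj hij
        have h1 := hcol i hi j hj hij
        simp only [f, Prod.mk.injEq] at h1
        have h2 := (I.rc _ (m3 i hi)).2
        have h3 := (I.rc _ (m3 j hj)).2
        rw [← h1.2.2.1] at h3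
        rw [hadd i hi a b] at h2
        rw [hadd j hj a b] at h3
        exact (two_letters two I.rL h2 h3).trans (K3_le_KR T K)
      cW1 := by
        intro i hi j hj hij
        have h1 := hcol i hi j hj hij
        simp only [f, Prod.mk.injEq] at h1
        have h2 := h1.2.2.2.1
        rw [QuotientAddGroup.eq, neg_eq_of_add_eq_zero_left (two _)] at h2
        exact h2
      cW2 := by
        intro i hi j hj hij
        have h1 := hcol i hi j hj hij
        simp only [f, Prod.mk.injEq] at h1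
        have h2 := h1.2.2.2.2
        rw [QuotientAddGroup.eq, neg_eq_of_add_eq_zero_left (two _)] at h2
        exact h2 }
  have hneJ : J.rows.Nonempty := hne.image _
  exact J.exists_out hneJ

/-- the density of the row data -/
noncomputable def dR (c : ℝ) (T K : ℕ) : ℝ := c / ((T : ℝ) ^ 2 * ((T : ℝ) ^ 3 * ((KR T K : ℝ) ^ 4 * ((K : ℝ) ^ 3 * (K : ℝ) ^ 2))))

theorem dR_pos {c : ℝ} {T K : ℕ} (hc : 0 < c) (hT : 1 ≤ T) (hK : 1 ≤ K) : 0 < dR c T K := by
  have h1 : 0 < KR T K := lt_of_lt_of_le hK (K_le_KR T K)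
  unfold dR
  positivity

/-- **The row data, with density.** -/
theorem RIn.exists_dens (I : RIn M n T R S U π S3 a b L1 mul sq L φ W Aop ν VV F0 K) (hn : 0 < n) {c : ℝ}
    (hc : 0 < c) (hS3 : c * (n : ℝ) ^ M.r ≤ (S3.card : ℝ)) : 1 ≤ T ∧ 0 < dR c T K ∧
    ∃ O : RowOut U L φ W (KR T K), dR c T K * (Fintype.card U : ℝ) ^ 2 ≤ (O.B.card : ℝ) := by
  have hn' : (0 : ℝ) < n := by exact_mod_cast hn
  have hne : S3.Nonempty := by
    rw [← card_pos]
    have h1 : (0 : ℝ) < (S3.card : ℝ) := lt_of_lt_of_le (by positivity) hS3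
    exact_mod_cast h1
  have hUpos : 0 < Fintype.card U := Fintype.card_pos
  have hT : 1 ≤ T := by
    have h1 := I.em.cardU
    rcases Nat.eq_zero_or_pos T with h | h
    · rw [h, zero_mul] at h1
      omega
    · exact h
  have hT' : (0 : ℝ) < T := by exact_mod_cast hT
  have hK' : (0 : ℝ) < K := by exact_mod_cast I.pos
  have hKR' : (0 : ℝ) < KR T K := by exact_mod_cast (lt_of_lt_of_le I.pos (K_le_KR T K))
  refine ⟨hT, dR_pos hc hT I.pos, ?_⟩
  obtain ⟨O, hO⟩ := I.exists_out hne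
  refine ⟨O, ?_⟩
  set Pn := (S3.image fun ρ => (ρ a, ρ b)).card with hPn
  have h1 := card_le_pairs I
  have hr : 2 ≤ M.r := by
    have := Pool.Agent.helper20.MF.rk_le_r M {a, b}
    rw [I.rk] at this
    exact this
  have h2 : (S3.card : ℝ) ≤ (Pn : ℝ) * (n : ℝ) ^ (M.r - 2) := by exact_mod_cast h1
  have h3 : c * (n : ℝ) ^ 2 ≤ (Pn : ℝ) := by
    have e : (n : ℝ) ^ M.r = (n : ℝ) ^ 2 * (n : ℝ) ^ (M.r - 2) := by
      rw [← pow_add]
      congr 1
      omega
    have h4 : (c * (n : ℝ) ^ 2) * (n : ℝ) ^ (M.r - 2) ≤ (Pn : ℝ) * (n : ℝ) ^ (M.r - 2) := by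
      calc (c * (n : ℝ) ^ 2) * (n : ℝ) ^ (M.r - 2) = c * (n : ℝ) ^ M.r := by rw [e]; ring
        _ ≤ _ := hS3.trans h2
    exact le_of_mul_le_mul_right h4 (by positivity)
  have h5 : (Pn : ℝ) ≤ (T : ℝ) ^ 3 * ((KR T K : ℝ) ^ 4 * ((K : ℝ) ^ 3 * (K : ℝ) ^ 2)) * (O.B.card : ℝ) := by
    exact_mod_cast hO
  have h6 : (Fintype.card U : ℝ) ≤ (T : ℝ) * (n : ℝ) := by exact_mod_cast I.em.cardU
  have h7 : (Fintype.card U : ℝ) ^ 2 ≤ ((T : ℝ) * (n : ℝ)) ^ 2 := by
    apply pow_le_pow_left₀ (by positivity) h6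
  set Q : ℝ := (T : ℝ) ^ 3 * ((KR T K : ℝ) ^ 4 * ((K : ℝ) ^ 3 * (K : ℝ) ^ 2)) with hQ
  have hQpos : 0 < Q := by positivity
  have h8 : c * (Fintype.card U : ℝ) ^ 2 ≤ ((T : ℝ) ^ 2 * Q) * (O.B.card : ℝ) := by
    calc c * (Fintype.card U : ℝ) ^ 2 ≤ c * ((T : ℝ) * (n : ℝ)) ^ 2 := by gcongr
      _ = (T : ℝ) ^ 2 * (c * (n : ℝ) ^ 2) := by ring
      _ ≤ (T : ℝ) ^ 2 * (Q * (O.B.card : ℝ)) :=
          mul_le_mul_of_nonneg_left (h3.trans h5) (by positivity)
      _ = _ := by ring
  unfold dR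
  rw [← hQ, div_mul_eq_mul_div, div_le_iff₀ (by positivity)]
  linarith [h8]

end

end Pool.Agent.helper49.MF
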