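import Mathlib
import Pool.Agent.helper49.MF.GRowB
import Pool.Agent.MF.EndAlg

set_option autoImplicit false
set_option linter.unusedSectionVars false

/-!
# MP_141f81, Section 9: the row data of (J) from the algebra of the roles
-/

namespace Pool.Agent.helper49.MF

open Finset Pool.Agent.MF Helper34MF
open Pool.Agent.MF.LemT (nr kr)
open Pool.Agent.helper20.MF (Hc RoleOK Op)

section

variable {N : Type} [AddCommGroup N] [Fintype N] [DecidableEq N] {M : Mat N} {n T J t : ℕ}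
  {R S S3 : Finset (N → Fin n)} {U : Type} [AddCommGroup U] [Fintype U] [DecidableEq U] {π : N → Fin n → U}
  {Lin L1 : Finset N} {a b : N} {D : ℕ → AddSubgroup N} {mul : N → N → N} {sq th ze g s : N → N}
  {L : U → AddMonoid.End U} {φ : AddMonoid.End U} {W : AddSubgroup U}
  {Aop : N → Fin n → AddMonoid.End U} {ν : N → Fin n → AddMonoid.End U} {VV : Finset (AddMonoid.End U)}
  {F0 : Finset U} {K : ℕ}

/-- the input of the row data from the algebra of the roles (`L1` = the carrier of one level `D t`) -/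
theorem rin_of (hK : KillAlg M Lin a b (mul a) (mul b) sq) (hE : EndAlg M Lin J D mul sq th ze g s)
    (ht : t + 4 ≤ J) (hL1 : ∀ v, v ∈ L1 ↔ v ∈ D t) (em : EMOut M n T R S U π) (sub3 : S3 ⊆ S)
    (op : ∀ v ∈ L1, v ≠ 0 → ∀ η ∈ S, Sec (Hc M π {v} L1 (sub S {v} η) (mul v)) (Aop v (η v)) K)
    (rL : ∀ u v : U, nr (L (u + v) + (L u + L v)) ≤ K)
    (rv : ∀ v ∈ L1, v ≠ 0 → ∀ η ∈ S3, ν v (η v) ∈ VV ∧ nr (Aop v (η v) + (L (π v (η v)) + ν v (η v))) ≤ K)
    (cV : VV.card ≤ K) (cW : W.index ≤ K) (c0 : F0.card ≤ K)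
    (h0 : ∀ η ∈ S3, φ (π a (η a)) + π (sq a) (η (sq a)) ∈ F0) (pos : 1 ≤ K) :
    RIn M n T R S U π S3 a b L1 mul sq L φ W Aop ν VV F0 K := by
  have hlev : ∀ k, k ≤ J → D 0 ≤ D k := by
    intro k
    induction k with
    | zero => intro _; exact le_refl _
    | succ k ih => intro hk; exact (ih (by omega)).trans (hE.mono k (by omega))
  have hlin : ∀ v ∈ Lin, v ∈ D t := fun v hv => hlev t (by omega) ((hE.lin v).2 hv)
  have ha : a ∈ D t := hlin a hK.a_mem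
  have hb : b ∈ D t := hlin b hK.b_mem
  have hab : a + b ∈ D t := (D t).add_mem ha hb
  have two := M.two
  have ha0 : a ≠ 0 := by
    intro h
    have h1 := hK.ind
    rw [h] at h1
    have h2 : M.rk {(0 : N), b} ≤ 1 := by
      have h3 : M.InCl {b} 0 := Mat.inCl_zero _
      unfold Mat.InCl at h3
      rw [h3]
      exact Mat.rk_singleton_le b
    omega
  have hb0 : b ≠ 0 := by
    intro h
    have h1 := hK.ind
    rw [h, Finset.pair_comm] at h1
    have h2 : M.rk {(0 : N), a} ≤ 1 := by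
      have h3 : M.InCl {a} 0 := Mat.inCl_zero _
      unfold Mat.InCl at h3
      rw [h3]
      exact Mat.rk_singleton_le a
    omega
  have hab0 : a + b ≠ 0 := by
    intro h
    have h1 := hK.ind
    have h2 : a = b := (Mat.add_eq_zero M).1 h
    rw [h2] at h1
    have h3 := Mat.rk_singleton_le (M := M) b
    rw [Finset.pair_eq_singleton] at h1
    omega
  have haL : a ∈ L1 := (hL1 a).2 ha
  have hbL : b ∈ L1 := (hL1 b).2 hb
  have habL : a + b ∈ L1 := (hL1 _).2 hab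
  refine
    { em := em
      sub3 := sub3
      rk := hK.ind
      aL := haL
      bL := hbL
      abL := habL
      sq_eq := ?_
      sym := ?_
      mab := ?_
      out := ?_
      opa := op a haL ha0
      opb := op b hbL hb0
      opc := op (a + b) habL hab0
      rL := rL
      ra := rv a haL ha0
      rb := rv b hbL hb0
      rc := rv (a + b) habL hab0
      cV := cV
      cW := cW
      c0 := c0
      h0 := h0
      pos := pos }
  · rw [hE.mul_add t (by omega) a ha a ha b hb, hE.mul_comm t ht b hb a ha, hE.sq_eq t ht a ha]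
    rw [add_comm (mul a b), add_assoc, two, add_zero]
  · exact hE.mul_comm t ht (a + b) hab a ha
  · intro v hv
    rw [hE.add_mul t (by omega) a ha b hb v ((hL1 v).1 hv)]
    exact two _
  · obtain ⟨v, hv, hv'⟩ := Pool.Agent.helper20.MF.exists_out hK.lin (τ := {a, b}) (le_of_eq hK.ind)
    exact ⟨v, (hL1 v).2 (hlin v hv), hv'⟩

/-- **The row data of (J), in the form of `EndX`.** -/
theorem rows_J (hK : KillAlg M Lin a b (mul a) (mul b) sq) (hE : EndAlg M Lin J D mul sq th ze g s)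
    (ht : t + 4 ≤ J) (hL1 : ∀ v, v ∈ L1 ↔ v ∈ D t) (em : EMOut M n T R S U π) (sub3 : S3 ⊆ S)
    (op : ∀ v ∈ L1, v ≠ 0 → ∀ η ∈ S, Sec (Hc M π {v} L1 (sub S {v} η) (mul v)) (Aop v (η v)) K)
    (rL : ∀ u v : U, nr (L (u + v) + (L u + L v)) ≤ K)
    (rv : ∀ v ∈ L1, v ≠ 0 → ∀ η ∈ S3, ν v (η v) ∈ VV ∧ nr (Aop v (η v) + (L (π v (η v)) + ν v (η v))) ≤ K)
    (cV : VV.card ≤ K) (c0 : F0.card ≤ K)
    (h0 : ∀ η ∈ S3, φ (π a (η a)) + π (sq a) (η (sq a)) ∈ F0) (pos : 1 ≤ K) (hn : 0 < n) {c : ℝ}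
    (hc : 0 < c) (hS3 : c * (n : ℝ) ^ M.r ≤ (S3.card : ℝ)) :
    0 < dR c T K ∧ ∃ (B : Finset (U × U)) (A1 A2 A3 : U → AddMonoid.End U) (c1 c2 c3 : U → U) (c0 : U),
      dR c T K * (Fintype.card U : ℝ) ^ 2 ≤ (B.card : ℝ) ∧
      (∀ p ∈ B, φ p.1 + c0 = (A2 p.2 p.1 + c2 p.2) + (A1 p.1 (p.1 + p.2) + c1 p.1)) ∧
      (∀ p ∈ B, A3 (p.1 + p.2) p.1 + c3 (p.1 + p.2) = A1 p.1 (p.1 + p.2) + c1 p.1) ∧
      (∀ p ∈ B, nr (A1 p.1 + A2 p.2 + A3 (p.1 + p.2)) ≤ KR T K) ∧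
      (∀ p ∈ B, ∀ p' ∈ B, nr (A1 p.1 + A1 p'.1 + L (p.1 + p'.1)) ≤ KR T K) ∧
      (∀ p ∈ B, ∀ p' ∈ B, nr (A2 p.2 + A2 p'.2 + L (p.2 + p'.2)) ≤ KR T K) ∧
      (∀ p ∈ B, ∀ p' ∈ B,
        nr (A3 (p.1 + p.2) + A3 (p'.1 + p'.2) + L ((p.1 + p.2) + (p'.1 + p'.2))) ≤ KR T K) := by
  have cW : (⊤ : AddSubgroup U).index ≤ K := by rw [AddSubgroup.index_top]; exact pos
  have I := rin_of (W := ⊤) hK hE ht hL1 em sub3 op rL rv cV cW c0 h0 pos
  obtain ⟨_, hd, O, hO⟩ := I.exists_dens hn hc hS3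
  exact ⟨hd, O.B, O.A1, O.A2, O.A3, O.c1, O.c2, O.c3, O.c0, hO, O.id1, O.id2, O.r0, O.r1, O.r2, O.r3⟩

end

end Pool.Agent.helper49.MF
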